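import Pool.Agent.N869.GK.StmH
import Pool.Agent.N128.GK.INVU

/-!
# GK/H-INVUH (helper700): the moments determine the law, prescribed values `ρ a`

Modification of `Pool/Agent/N128/GK/INVU.lean`.
-/

set_option autoImplicit false

open scoped Classical

namespace Pool.Agent.N700.GK

open Finset
open Pool.Agent.N869.GK Pool.Agent.N869.GK.H
open Pool.Agent.N128.GK (one_var prod_diff mom_pos)

theorem moments {I Ω : Type} [Fintype I] [Fintype Ω] (k : Ω → I → ℕ) (m₀ : ℕ) (δ : ℝ)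
    (h : ∀ m : I → ℕ, (∀ a, m a ≤ m₀) →
      |(∑ ω, ∏ a, (2 : ℝ) ^ (m a * k ω a)) / Fintype.card Ω - ∏ a, mom (m a)| ≤ δ)
    (t : I → Finset ℕ) (ht : ∀ a, ∀ i ∈ t a, i ≤ m₀) (c : I → ℕ → ℝ) :
    |(∑ ω, ∏ a, ∑ i ∈ t a, c a i * ((2 : ℝ) ^ k ω a) ^ i) / Fintype.card Ω -
      ∏ a, ∑ i ∈ t a, c a i * mom i| ≤ δ * ∏ a, ∑ i ∈ t a, |c a i| := by
  have e1 : ∀ ω, ∏ a, ∑ i ∈ t a, c a i * ((2 : ℝ) ^ k ω a) ^ i =
      ∑ m ∈ Fintype.piFinset t, (∏ a, c a (m a)) * ∏ a, (2 : ℝ) ^ (m a * k ω a) := by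
    intro ω
    rw [Finset.prod_univ_sum]
    refine Finset.sum_congr rfl fun m _ => ?_
    rw [← Finset.prod_mul_distrib]
    refine Finset.prod_congr rfl fun a _ => ?_
    rw [← pow_mul, mul_comm (k ω a)]
  have e2 : ∏ a, ∑ i ∈ t a, c a i * mom i =
      ∑ m ∈ Fintype.piFinset t, (∏ a, c a (m a)) * ∏ a, mom (m a) := by
    rw [Finset.prod_univ_sum]
    refine Finset.sum_congr rfl fun m _ => ?_
    rw [← Finset.prod_mul_distrib]
  have e3 : ∏ a, ∑ i ∈ t a, |c a i| =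
      ∑ m ∈ Fintype.piFinset t, |∏ a, c a (m a)| := by
    rw [Finset.prod_univ_sum]
    refine Finset.sum_congr rfl fun m _ => ?_
    rw [Finset.abs_prod]
  have e4 : (∑ ω, ∏ a, ∑ i ∈ t a, c a i * ((2 : ℝ) ^ k ω a) ^ i) / Fintype.card Ω =
      ∑ m ∈ Fintype.piFinset t, (∏ a, c a (m a)) *
        ((∑ ω, ∏ a, (2 : ℝ) ^ (m a * k ω a)) / Fintype.card Ω) := by
    rw [Finset.sum_congr rfl fun ω _ => e1 ω, Finset.sum_comm, Finset.sum_div]
    refine Finset.sum_congr rfl fun m _ => ?_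
    rw [← Finset.mul_sum, mul_div_assoc]
  rw [e4, e2, e3, ← Finset.sum_sub_distrib, Finset.mul_sum]
  refine (Finset.abs_sum_le_sum_abs _ _).trans (Finset.sum_le_sum fun m hm => ?_)
  rw [← mul_sub, abs_mul, mul_comm δ]
  apply mul_le_mul_of_nonneg_left _ (abs_nonneg _)
  apply h
  intro a
  exact ht a _ (Fintype.mem_piFinset.1 hm a)

/-- the law of one family -/
theorem law {I Ω : Type} [Fintype I] [Fintype Ω] [Nonempty Ω] (k : Ω → I → ℕ) (e m₀ : ℕ)
    (ρ N : I → ℕ) (θ : I → ℝ) (η ε δ : ℝ) (c : I → ℕ → ℝ) (hN : ∀ a, 1 ≤ N a)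
    (hNm : ∀ a, N a ≤ m₀) (hθ : ∀ a, 0 < θ a) (hη : ∀ a, θ a * mom (N a) ≤ η)
    (hc : ∀ a, ∀ k : ℕ, k % 2 = e % 2 → |(if k = ρ a then (1 : ℝ) else 0) -
        ∑ i ∈ range (N a + 1), c a i * (2 ^ k) ^ i| ≤ θ a * (2 ^ k) ^ N a)
    (hk : ∀ ω a, k ω a % 2 = e % 2)
    (hε : (1 + η) ^ Fintype.card I ≤ 1 + ε / 8)
    (hδ1 : δ * ∏ a, (1 + θ a) ≤ ε / 8)
    (hδ2 : δ * ∏ a, (∑ i ∈ range (N a + 1), |c a i|) ≤ ε / 8)
    (h : ∀ m : I → ℕ, (∀ a, m a ≤ m₀) →
      |(∑ ω, ∏ a, (2 : ℝ) ^ (m a * k ω a)) / Fintype.card Ω - ∏ a, mom (m a)| ≤ δ) :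
    |((univ.filter fun ω : Ω => ∀ a, k ω a = ρ a).card : ℝ) / Fintype.card Ω -
      ∏ a, ∑ i ∈ range (N a + 1), c a i * mom i| ≤ 3 * ε / 8 := by
  have hcard : (0 : ℝ) < Fintype.card Ω := by exact_mod_cast Fintype.card_pos
  have h1 := moments k m₀ δ h (fun a => range (N a + 1)) (fun a i hi => by
    have := Finset.mem_range.1 hi
    have := hNm a
    omega) c
  have h2 := moments k m₀ δ h (fun a => {0, N a}) (fun a i hi => by
    have := hNm a
    rcases Finset.mem_insert.1 hi with h | h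
    · omega
    · have := Finset.mem_singleton.1 h
      omega) (fun a i => if i = 0 then 1 else θ a)
  have hN0 : ∀ a, N a ≠ 0 := fun a => by
    have := hN a
    omega
  have f1 : ∀ (a : I) (x : ℕ → ℝ), ∑ i ∈ ({0, N a} : Finset ℕ),
      (if i = 0 then (1 : ℝ) else θ a) * x i = x 0 + θ a * x (N a) := by
    intro a x
    rw [Finset.sum_pair (Ne.symm (hN0 a)), if_pos rfl, if_neg (hN0 a), one_mul]
  have f2 : ∀ a : I, ∑ i ∈ ({0, N a} : Finset ℕ), |(if i = 0 then (1 : ℝ) else θ a)| =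
      1 + θ a := by
    intro a
    rw [Finset.sum_pair (Ne.symm (hN0 a)), if_pos rfl, if_neg (hN0 a), abs_one,
      abs_of_pos (hθ a)]
  have hm0 : mom 0 = 1 := by simp [mom]
  have f3 : ∀ (a : I) (y : ℝ), ∑ i ∈ ({0, N a} : Finset ℕ),
      (if i = 0 then (1 : ℝ) else θ a) * y ^ i = 1 + θ a * y ^ N a := by
    intro a y
    rw [f1 a (fun i => y ^ i), pow_zero]
  have f4 : ∀ (a : I), ∑ i ∈ ({0, N a} : Finset ℕ),
      (if i = 0 then (1 : ℝ) else θ a) * mom i = 1 + θ a * mom (N a) := by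
    intro a
    rw [f1 a mom, hm0]
  simp only [f3, f4, f2] at h2
  have h3 : ∏ a, (1 + θ a * mom (N a)) ≤ (1 + η) ^ Fintype.card I := by
    rw [← Finset.card_univ, ← Finset.prod_const]
    apply Finset.prod_le_prod
    · intro a _
      have := mom_pos (N a)
      have := hθ a
      positivity
    · intro a _
      linarith [hη a]
  have h4 : (∑ ω, ∏ a, (1 + θ a * ((2 : ℝ) ^ k ω a) ^ N a)) / Fintype.card Ω ≤ 1 + ε / 4 := by
    have := (abs_le.1 h2).2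
    linarith
  have h5 : ((univ.filter fun ω : Ω => ∀ a, k ω a = ρ a).card : ℝ) =
      ∑ ω, ∏ a, (if k ω a = ρ a then (1 : ℝ) else 0) := by
    rw [Finset.card_filter]
    push_cast
    refine Finset.sum_congr rfl fun ω _ => ?_
    rw [Finset.prod_ite_zero]
    simp
  have h6 : |((univ.filter fun ω : Ω => ∀ a, k ω a = ρ a).card : ℝ) / Fintype.card Ω -
      (∑ ω, ∏ a, ∑ i ∈ range (N a + 1), c a i * ((2 : ℝ) ^ k ω a) ^ i) / Fintype.card Ω| ≤
      ε / 4 := by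
    rw [h5, ← sub_div, ← Finset.sum_sub_distrib, abs_div, abs_of_pos hcard]
    have h7 : |∑ ω, (∏ a, (if k ω a = ρ a then (1 : ℝ) else 0) -
        ∏ a, ∑ i ∈ range (N a + 1), c a i * ((2 : ℝ) ^ k ω a) ^ i)| ≤
        ∑ ω, (∏ a, (1 + θ a * ((2 : ℝ) ^ k ω a) ^ N a) - 1) := by
      refine (Finset.abs_sum_le_sum_abs _ _).trans (Finset.sum_le_sum fun ω _ => ?_)
      refine (prod_diff univ _ _ _ (fun a => ?_) (fun a => hc a _ (hk ω a))).1
      split_ifs <;> simp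
    have h8 : ∑ ω, (∏ a, (1 + θ a * ((2 : ℝ) ^ k ω a) ^ N a) - 1) =
        ∑ ω, ∏ a, (1 + θ a * ((2 : ℝ) ^ k ω a) ^ N a) - Fintype.card Ω := by
      rw [Finset.sum_sub_distrib]
      simp
    rw [h8] at h7
    rw [div_le_iff₀ hcard]
    rw [div_le_iff₀ hcard] at h4
    linarith
  have h7 : ((univ.filter fun ω : Ω => ∀ a, k ω a = ρ a).card : ℝ) / Fintype.card Ω -
      ∏ a, ∑ i ∈ range (N a + 1), c a i * mom i =
      (((univ.filter fun ω : Ω => ∀ a, k ω a = ρ a).card : ℝ) / Fintype.card Ω -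
      (∑ ω, ∏ a, ∑ i ∈ range (N a + 1), c a i * ((2 : ℝ) ^ k ω a) ^ i) / Fintype.card Ω) +
      ((∑ ω, ∏ a, ∑ i ∈ range (N a + 1), c a i * ((2 : ℝ) ^ k ω a) ^ i) / Fintype.card Ω -
      ∏ a, ∑ i ∈ range (N a + 1), c a i * mom i) := by ring
  rw [h7]
  refine (abs_add_le _ _).trans ?_
  linarith

/-- GK/H-INVUH -/
theorem t_INVUH : S_INVUH := by
  intro I _ e ρ ε hε
  by_cases hρ : ∀ a, ρ a % 2 = e % 2
  · obtain ⟨η, hη0, hη⟩ : ∃ η : ℝ, 0 < η ∧ (1 + η) ^ Fintype.card I ≤ 1 + ε / 8 := by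
      have hcont : Continuous fun η : ℝ => (1 + η) ^ Fintype.card I :=
        (continuous_const.add continuous_id).pow _
      have h0 : (1 + (0 : ℝ)) ^ Fintype.card I < 1 + ε / 8 := by
        rw [add_zero, one_pow]
        linarith
      have h1 : ∀ᶠ η : ℝ in nhds 0, (1 + η) ^ Fintype.card I < 1 + ε / 8 :=
        (hcont.tendsto 0).eventually (gt_mem_nhds h0)
      obtain ⟨r, hr, h2⟩ := Metric.eventually_nhds_iff.1 h1
      refine ⟨r / 2, by linarith, (h2 ?_).le⟩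
      rw [Real.dist_eq, sub_zero, abs_of_pos (by linarith)]
      linarith
    choose N θ c hN hθ hθη hc using fun a => one_var (e % 2) (ρ a) (hρ a) hη0
    set S : ℝ := ∏ a, (∑ i ∈ range (N a + 1), |c a i|) with hS
    have hS0 : 0 ≤ S := Finset.prod_nonneg fun a _ => Finset.sum_nonneg fun _ _ => abs_nonneg _
    set R : ℝ := ∏ a, (1 + θ a) with hR
    have hR0 : 0 < R := Finset.prod_pos fun a _ => by
      have := hθ a
      positivity
    set δ : ℝ := ε / (8 * (R + S + 1)) with hδ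
    have hδ0 : 0 < δ := by positivity
    have hδe : δ * (R + S + 1) = ε / 8 := by rw [hδ]; field_simp
    have hNm : ∀ a, N a ≤ univ.sup N := fun a => Finset.le_sup (Finset.mem_univ a)
    refine ⟨univ.sup N, δ, hδ0, ?_⟩
    intro Ω Ω' _ _ _ _ k k' hk hk' hm hm'
    have h1 := law k e (univ.sup N) ρ N θ η ε δ c hN hNm hθ hθη hc hk hη (by nlinarith)
      (by nlinarith) hm
    have h2 := law k' e (univ.sup N) ρ N θ η ε δ c hN hNm hθ hθη hc hk' hη (by nlinarith)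
      (by nlinarith) hm'
    rw [abs_le] at h1 h2 ⊢
    constructor <;> linarith [h1.1, h1.2, h2.1, h2.2]
  · refine ⟨0, 1, one_pos, ?_⟩
    intro Ω Ω' _ _ _ _ k k' hk hk' _ _
    push Not at hρ
    obtain ⟨a, ha⟩ := hρ
    have h1 : (univ.filter fun ω : Ω => ∀ a, k ω a = ρ a) = ∅ := by
      ext ω
      simp only [mem_filter, mem_univ, true_and, notMem_empty, iff_false]
      intro h
      have h5 := hk ω a
      rw [h a] at h5
      exact ha h5
    have h2 : (univ.filter fun ω : Ω' => ∀ a, k' ω a = ρ a) = ∅ := by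
      ext ω
      simp only [mem_filter, mem_univ, true_and, notMem_empty, iff_false]
      intro h
      have h5 := hk' ω a
      rw [h a] at h5
      exact ha h5
    rw [h1, h2]
    simp
    exact hε.le

end Pool.Agent.N700.GK
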